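import Mathlib
import Pool.Agent.H20Z.ExtMain
import Pool.Agent.H318Z.MA.Main

set_option autoImplicit false

open Pool.Agent.H20Z.Ext H318Z.MA Pool.Agent.Helper292.ForceCH

/-- Some forcing notion preserves `ω₁` and forces `MA_{ℵ₁}`, and `MA_{ℵ₁}` implies that the
Yoneda group `Ext^2(c_0(ω₁), c_0)` vanishes. -/
theorem Pool.Agent.Results.MP_c1e359_an.AExtTwoMA.result :
    (∃ (P : Type) (_ : Preorder P), Nonempty P ∧
      ∀ p : P, p ∈ OmegaOnePreserved P ∧ p ∈ MAHolds P Om) ∧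
    (MartinAxiom.{0, 0} Om → Ext2Vanishes (c0 Om) (c0 ℕ)) := by
  refine ⟨H318Z.MA.exists_forcing, fun h => ext2_vanishes fun X _ hX hc D hD => ?_⟩
  obtain ⟨e⟩ : Nonempty (Om ≃ Om × ℕ) := by
    rw [← Cardinal.eq]
    simp [Cardinal.mul_aleph0_eq Cardinal.aleph0_lt_aleph_one.le]
  obtain ⟨G, h1, h2, h3, h4⟩ := h X hX hc (fun k => D (e k)) fun k => hD (e k)
  exact ⟨G, h1, h2, h3, fun k => by simpa using h4 (e.symm k)⟩
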